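import Pool.Agent.Lib.MP_4bd73f_an.Variation

/-!
Soft thresholding along a finite family with bounded greedy sums.
-/

namespace Pool.Agent.Lib.MP_4bd73f_an

open Finset

variable {Y : Type*} [NormedAddCommGroup Y] [NormedSpace ℝ Y]

/-- Greedy sums of nonnegative combinations of the vectors `y n`, `n ∈ F`, are bounded by `K`. -/
def GreedyBound (y : ℕ → Y) (F : Finset ℕ) (K : ℝ) : Prop :=
  ∀ ρ : ℕ → ℝ, (∀ n, 0 ≤ ρ n) → ∀ A : Finset ℕ, A ⊆ F →
    (∀ n ∈ A, ∀ k ∈ F, k ∉ A → ρ k ≤ ρ n) → ‖∑ n ∈ A, ρ n • y n‖ ≤ K * ‖∑ n ∈ F, ρ n • y n‖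

lemma GreedyBound.mult {y : ℕ → Y} {F : Finset ℕ} {K : ℝ} (hK : 0 ≤ K) (h : GreedyBound y F K)
    (ρ : ℕ → ℝ) (hρ : ∀ n, 0 ≤ ρ n) :
    ∀ (c : ℕ) (μ : ℕ → ℝ) (M : ℝ), 0 ≤ M → (F.filter fun n => μ n ≠ 0).card = c →
      (∀ n ∈ F, 0 ≤ μ n ∧ μ n ≤ M) → (∀ n ∈ F, ∀ k ∈ F, μ k < μ n → ρ k ≤ ρ n) →
      ‖∑ n ∈ F, (μ n * ρ n) • y n‖ ≤ M * (K * ‖∑ n ∈ F, ρ n • y n‖) := by
  classical
  intro c
  induction c using Nat.strong_induction_on with
  | _ c ih =>
  intro μ M hM hc hμ hord
  set A := F.filter fun n => μ n ≠ 0 with hA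
  rcases A.eq_empty_or_nonempty with hAe | hAne
  · have : ∑ n ∈ F, (μ n * ρ n) • y n = 0 := by
      refine sum_eq_zero fun n hn => ?_
      have : μ n = 0 := by
        by_contra hne
        have : n ∈ A := mem_filter.2 ⟨hn, hne⟩
        rw [hAe] at this
        simp at this
      simp [this]
    rw [this, norm_zero]
    positivity
  · obtain ⟨n0, hn0, hmin⟩ := A.exists_min_image μ hAne
    have hn0F : n0 ∈ F := (mem_filter.1 hn0).1
    let μ' : ℕ → ℝ := fun n => if μ n = 0 then 0 else μ n - μ n0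
    have hcard : (F.filter fun n => μ' n ≠ 0).card < c := by
      rw [← hc]
      refine card_lt_card ⟨fun n hn => ?_, fun hsub => ?_⟩
      · simp only [mem_filter, μ'] at hn
        refine mem_filter.2 ⟨hn.1, fun h0 => ?_⟩
        simp [h0] at hn
      · have := hsub hn0
        simp [μ'] at this
    have hM' : 0 ≤ M - μ n0 := sub_nonneg.2 (hμ n0 hn0F).2
    have h1 := ih _ hcard μ' (M - μ n0) hM' rfl (fun n hn => by
        by_cases h0 : μ n = 0
        · simp only [μ', if_pos h0]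
          exact ⟨le_rfl, hM'⟩
        · simp only [μ', if_neg h0]
          have := hmin n (mem_filter.2 ⟨hn, h0⟩)
          have := (hμ n hn).2
          constructor <;> linarith)
      (fun n hn k hk hlt => by
        refine hord n hn k hk ?_
        have hn' := (hμ n hn).1
        have hk' := (hμ k hk).1
        have h00 := (hμ n0 hn0F).1
        by_cases h0 : μ n = 0
        · by_cases h1 : μ k = 0
          · simp [μ', h0, h1] at hlt
          · have := hmin k (mem_filter.2 ⟨hk, h1⟩)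
            simp only [μ', if_pos h0, if_neg h1] at hlt
            linarith
        · by_cases h1 : μ k = 0
          · simp only [μ', if_neg h0, if_pos h1] at hlt
            linarith
          · simp only [μ', if_neg h0, if_neg h1] at hlt
            linarith)
    have h2 := h ρ hρ A (filter_subset _ _) (fun n hn k hk hkA => by
      have hn' := mem_filter.1 hn
      refine hord n hn'.1 k hk ?_
      have : μ k = 0 := by
        by_contra hne
        exact hkA (mem_filter.2 ⟨hk, hne⟩)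
      rw [this]
      exact lt_of_le_of_ne (hμ n hn'.1).1 (Ne.symm hn'.2))
    have e : ∑ n ∈ F, (μ n * ρ n) • y n =
        ∑ n ∈ F, (μ' n * ρ n) • y n + μ n0 • ∑ n ∈ A, ρ n • y n := by
      rw [hA, sum_filter, smul_sum, ← sum_add_distrib]
      refine sum_congr rfl fun n _ => ?_
      by_cases h0 : μ n = 0
      · simp [μ', h0]
      · simp only [μ', if_neg h0, ne_eq, h0, not_false_eq_true, if_true, smul_smul]
        rw [← add_smul]
        congr 1
        ring
    rw [e]
    refine (norm_add_le _ _).trans ?_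
    rw [norm_smul, Real.norm_of_nonneg (hμ n0 hn0F).1]
    have h3 := mul_le_mul_of_nonneg_left h2 (hμ n0 hn0F).1
    linarith

lemma GreedyBound.thr {y : ℕ → Y} {F : Finset ℕ} {K : ℝ} (hK : 0 ≤ K) (h : GreedyBound y F K)
    (ρ : ℕ → ℝ) (hρ : ∀ n, 0 ≤ ρ n) (s : ℝ) (hs : 0 ≤ s) :
    ‖∑ n ∈ F, max (ρ n - s) 0 • y n‖ ≤ K * ‖∑ n ∈ F, ρ n • y n‖ := by
  have h1 := h.mult hK ρ hρ _ (fun n => max (ρ n - s) 0 / ρ n) 1 zero_le_one rfl
    (fun n _ => ⟨div_nonneg (le_max_right _ _) (hρ n), div_le_one_of_le₀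
      (max_le (by linarith) (hρ n)) (hρ n)⟩)
    (fun n _ k _ hlt => by
      by_contra hc
      push Not at hc
      refine absurd hlt (not_lt.2 ?_)
      rcases le_total (ρ n - s) 0 with h0 | h0
      · rw [max_eq_right h0, zero_div]
        exact div_nonneg (le_max_right _ _) (hρ k)
      · rcases (hρ n).eq_or_lt with hz | hz
        · rw [← hz, div_zero]
          exact div_nonneg (le_max_right _ _) (hρ k)
        · rw [max_eq_left h0, max_eq_left (by linarith),
            div_le_div_iff₀ hz (hz.trans hc)]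
          nlinarith)
  rw [one_mul] at h1
  convert h1 using 3 with n hn
  rcases (hρ n).eq_or_lt with hz | hz
  · rw [← hz, mul_zero, max_eq_right (by linarith)]
  · rw [div_mul_cancel₀ _ hz.ne']

/-- The soft thresholding path. -/
noncomputable def path (y : ℕ → Y) (F : Finset ℕ) (a : ℕ → ℝ) (t : ℕ → ℝ) (k : ℕ) : Y :=
  ∑ n ∈ F, max (a n - t k) 0 • y n

lemma GreedyBound.sep {y : ℕ → Y} {F : Finset ℕ} {K : ℝ} (hK : 0 ≤ K) (h : GreedyBound y F K)
    (a : ℕ → ℝ) (t : ℕ → ℝ) (ht : Antitone t) (ht0 : ∀ k, 0 ≤ t k) :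
    Sep (2 * K) (path y F a t) := by
  intro m m' hm u hu v hv
  have htm : t m' ≤ t m := ht hm
  let U : Set Y := {u | ∃ ρ : ℕ → ℝ, (∀ n, 0 ≤ ρ n ∧ ρ n ≤ max (a n - t m) 0) ∧
    u = ∑ n ∈ F, ρ n • y n}
  let V : Set Y := {v | ∃ (σ : ℕ → ℝ) (b : ℝ), 0 ≤ b ∧ b ≤ t m' ∧
    (∀ n, t m' ≤ a n → σ n = a n - b) ∧ (∀ n, a n ≤ t m' → 0 ≤ σ n ∧ σ n ≤ t m' - b) ∧
    v = ∑ n ∈ F, σ n • y n}
  have hU : Convex ℝ U := by
    rintro _ ⟨ρ1, h1, rfl⟩ _ ⟨ρ2, h2, rfl⟩ α β hα hβ hab
    refine ⟨fun n => α * ρ1 n + β * ρ2 n, fun n => ⟨?_, ?_⟩, ?_⟩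
    · have := (h1 n).1
      have := (h2 n).1
      positivity
    · have e : max (a n - t m) 0 = α * max (a n - t m) 0 + β * max (a n - t m) 0 := by
        rw [← add_mul, hab, one_mul]
      rw [e]
      exact add_le_add (mul_le_mul_of_nonneg_left (h1 n).2 hα)
        (mul_le_mul_of_nonneg_left (h2 n).2 hβ)
    · rw [smul_sum, smul_sum, ← sum_add_distrib]
      refine sum_congr rfl fun n _ => ?_
      rw [add_smul, smul_smul, smul_smul]
  have hV : Convex ℝ V := by
    rintro _ ⟨σ1, b1, hb1, hb1', h1, h1', rfl⟩ _ ⟨σ2, b2, hb2, hb2', h2, h2', rfl⟩ α β hα hβ hab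
    have hβ' : β = 1 - α := by linarith
    refine ⟨fun n => α * σ1 n + β * σ2 n, α * b1 + β * b2, by positivity, ?_, fun n hn => ?_,
      fun n hn => ⟨?_, ?_⟩, ?_⟩
    · subst hβ'
      nlinarith
    · simp only [h1 n hn, h2 n hn]
      subst hβ'
      ring
    · have := (h1' n hn).1
      have := (h2' n hn).1
      positivity
    · have h3 := mul_le_mul_of_nonneg_left (h1' n hn).2 hα
      have h4 := mul_le_mul_of_nonneg_left (h2' n hn).2 hβ
      subst hβ'
      simp only
      linarith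
    · rw [smul_sum, smul_sum, ← sum_add_distrib]
      refine sum_congr rfl fun n _ => ?_
      rw [add_smul, smul_smul, smul_smul]
  have hu' : u ∈ U := by
    refine convexHull_min ?_ hU hu
    rintro _ ⟨k, hk, rfl⟩
    refine ⟨fun n => max (a n - t k) 0, fun n => ⟨le_max_right _ _, ?_⟩, rfl⟩
    have : t m ≤ t k := ht hk
    exact max_le_max (by linarith) le_rfl
  have hv' : v ∈ V := by
    refine convexHull_min ?_ hV hv
    rintro _ ⟨k, hk, rfl⟩
    have : t k ≤ t m' := ht hk
    refine ⟨fun n => max (a n - t k) 0, t k, ht0 k, this, fun n hn => max_eq_left (by linarith),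
      fun n hn => ⟨le_max_right _ _, max_le (by linarith) (by linarith)⟩, rfl⟩
  obtain ⟨ρ, hρ, rfl⟩ := hu'
  obtain ⟨σ, b, hb0, hb, hσ1, hσ2, rfl⟩ := hv'
  have hfacts : ∀ n, 0 ≤ σ n - ρ n ∧
      max (a n - t m') 0 - max (a n - t m) 0 =
        max (σ n - ρ n - (t m' - b)) 0 - max (σ n - ρ n - (t m - b)) 0 := by
    intro n
    obtain ⟨r1, r2⟩ := hρ n
    rcases le_total (a n) (t m') with h1 | h1
    · obtain ⟨s1, s2⟩ := hσ2 n h1
      rw [max_eq_right (by linarith)] at r2
      have r3 : ρ n = 0 := le_antisymm r2 r1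
      refine ⟨by linarith, ?_⟩
      rw [max_eq_right (by linarith), max_eq_right (by linarith), max_eq_right (by linarith),
        max_eq_right (by linarith)]
    · have s1 := hσ1 n h1
      rcases le_total (a n) (t m) with h2 | h2
      · rw [max_eq_right (by linarith)] at r2
        have r3 : ρ n = 0 := le_antisymm r2 r1
        refine ⟨by linarith, ?_⟩
        rw [max_eq_left (by linarith), max_eq_right (by linarith), max_eq_left (by linarith),
          max_eq_right (by linarith)]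
        linarith
      · rw [max_eq_left (by linarith)] at r2
        refine ⟨by linarith, ?_⟩
        rw [max_eq_left (by linarith), max_eq_left (by linarith), max_eq_left (by linarith),
          max_eq_left (by linarith)]
        linarith
  have e1 : ∑ n ∈ F, σ n • y n - ∑ n ∈ F, ρ n • y n = ∑ n ∈ F, (σ n - ρ n) • y n := by
    rw [← sum_sub_distrib]
    exact sum_congr rfl fun n _ => (sub_smul _ _ _).symm
  have e2 : path y F a t m' - path y F a t m =
      ∑ n ∈ F, max (σ n - ρ n - (t m' - b)) 0 • y n -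
        ∑ n ∈ F, max (σ n - ρ n - (t m - b)) 0 • y n := by
    unfold path
    rw [← sum_sub_distrib, ← sum_sub_distrib]
    refine sum_congr rfl fun n _ => ?_
    rw [← sub_smul, ← sub_smul, (hfacts n).2]
  rw [e1, e2]
  have t1 := h.thr hK (fun n => σ n - ρ n) (fun n => (hfacts n).1) (t m' - b) (by linarith)
  have t2 := h.thr hK (fun n => σ n - ρ n) (fun n => (hfacts n).1) (t m - b) (by linarith)
  refine (norm_sub_le _ _).trans ?_
  linarith

lemma GreedyBound.incr {y : ℕ → Y} {F : Finset ℕ} {K : ℝ} (h : GreedyBound y F K)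
    (a : ℕ → ℝ) (t : ℕ → ℝ) (k : ℕ) (htk : t (k + 1) ≤ t k) :
    (t k - t (k + 1)) * ‖∑ n ∈ F.filter (fun n => t k < a n), y n‖ ≤
      K * ‖path y F a t (k + 1) - path y F a t k‖ := by
  classical
  have h1 := h (fun n => max (a n - t (k + 1)) 0 - max (a n - t k) 0)
    (fun n => sub_nonneg.2 (max_le_max (by linarith) le_rfl))
    (F.filter (fun n => t k < a n)) (filter_subset _ _) (fun n hn j _ _ => by
      have hn' := (mem_filter.1 hn).2
      rw [max_eq_left (show 0 ≤ a n - t (k + 1) by linarith),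
        max_eq_left (show 0 ≤ a n - t k by linarith)]
      have h2 : max (a j - t (k + 1)) 0 ≤ max (a j - t k) 0 + (t k - t (k + 1)) :=
        max_le (by linarith [le_max_left (a j - t k) 0]) (by linarith [le_max_right (a j - t k) 0])
      linarith)
  have e1 : ∑ n ∈ F.filter (fun n => t k < a n),
      (max (a n - t (k + 1)) 0 - max (a n - t k) 0) • y n =
      (t k - t (k + 1)) • ∑ n ∈ F.filter (fun n => t k < a n), y n := by
    rw [smul_sum]
    refine sum_congr rfl fun n hn => ?_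
    have hn' := (mem_filter.1 hn).2
    rw [max_eq_left (show 0 ≤ a n - t (k + 1) by linarith),
      max_eq_left (show 0 ≤ a n - t k by linarith)]
    congr 1
    ring
  have e2 : path y F a t (k + 1) - path y F a t k =
      ∑ n ∈ F, (max (a n - t (k + 1)) 0 - max (a n - t k) 0) • y n := by
    unfold path
    rw [← sum_sub_distrib]
    exact sum_congr rfl fun n _ => (sub_smul _ _ _).symm
  rw [e1, norm_smul, Real.norm_of_nonneg (by linarith), ← e2] at h1
  exact h1

/-- The dyadic level estimate. -/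
theorem level_estimate [UniformConvexSpace Y] {K : ℝ} (hK : 0 < K) :
    ∃ r : ℕ, 1 ≤ r ∧ ∃ C : ℝ, 0 ≤ C ∧ ∀ (y : ℕ → Y) (F : Finset ℕ), GreedyBound y F K →
      ∀ (a : ℕ → ℝ), (∀ n, 0 ≤ a n) → ∀ T : ℝ, 0 ≤ T → (∀ n, a n ≤ T) → ∀ N : ℕ,
      ∑ k ∈ range N, (T / 2 ^ k * ‖∑ n ∈ F.filter (fun n => T / 2 ^ k < a n), y n‖) ^ r ≤
        C * ‖∑ n ∈ F, a n • y n‖ ^ r := by
  obtain ⟨r, hr, C, hC, h⟩ := variation (Y := Y) (L := 2 * K) (by positivity)
  refine ⟨r, hr, (2 * K) ^ r * C * K ^ r, by positivity, fun y F hF a ha T hT haT N => ?_⟩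
  let t : ℕ → ℝ := fun k => T / 2 ^ k
  have hts : ∀ k, t (k + 1) = t k / 2 := fun k => by
    simp only [t, pow_succ]
    field_simp
  have ht0 : ∀ k, 0 ≤ t k := fun k => by positivity
  have ht : Antitone t := antitone_nat_of_succ_le fun k => by
    rw [hts]
    linarith [ht0 k]
  have h1 := h _ (hF.sep hK.le a t ht ht0) N
  have hP0 : path y F a t 0 = 0 := by
    refine sum_eq_zero fun n _ => ?_
    rw [max_eq_right (by simpa [t] using haT n), zero_smul]
  rw [hP0, sub_zero] at h1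
  have h2 : ‖path y F a t N‖ ≤ K * ‖∑ n ∈ F, a n • y n‖ := hF.thr hK.le a ha (t N) (ht0 N)
  have h3 : ‖path y F a t N‖ ^ r ≤ K ^ r * ‖∑ n ∈ F, a n • y n‖ ^ r := by
    rw [← mul_pow]
    exact pow_le_pow_left₀ (norm_nonneg _) h2 r
  calc ∑ k ∈ range N, (T / 2 ^ k * ‖∑ n ∈ F.filter (fun n => T / 2 ^ k < a n), y n‖) ^ r
      ≤ ∑ k ∈ range N, (2 * K) ^ r * ‖path y F a t (k + 1) - path y F a t k‖ ^ r := by
        refine sum_le_sum fun k _ => ?_
        rw [← mul_pow]
        refine pow_le_pow_left₀ (by positivity) ?_ r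
        have := hF.incr a t k (ht (Nat.le_succ k))
        rw [hts] at this
        simp only [t] at this
        linarith
    _ = (2 * K) ^ r * ∑ k ∈ range N, ‖path y F a t (k + 1) - path y F a t k‖ ^ r := by
        rw [mul_sum]
    _ ≤ (2 * K) ^ r * (C * (K ^ r * ‖∑ n ∈ F, a n • y n‖ ^ r)) := by
        refine mul_le_mul_of_nonneg_left (h1.trans ?_) (by positivity)
        exact mul_le_mul_of_nonneg_left h3 hC
    _ = _ := by ring

end Pool.Agent.Lib.MP_4bd73f_an
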