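import Mathlib

/-!
Sequences with separated convex hulls in a uniformly convex space have bounded `r`-variation
along consecutive increments.
-/

namespace Pool.Agent.Lib.MP_4bd73f_an

open Finset

variable {Y : Type*} [NormedAddCommGroup Y] [NormedSpace ℝ Y]

/-- The convex hull of the initial points and the convex hull of the final points are separated. -/
def Sep (L : ℝ) (P : ℕ → Y) : Prop :=
  ∀ m m' : ℕ, m ≤ m' → ∀ u ∈ convexHull ℝ (P '' {k | k ≤ m}),
    ∀ v ∈ convexHull ℝ (P '' {k | m' ≤ k}), ‖P m' - P m‖ ≤ L * ‖v - u‖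

lemma Sep.comp {L : ℝ} {P : ℕ → Y} (h : Sep L P) {φ : ℕ → ℕ} (hφ : Monotone φ) :
    Sep L (P ∘ φ) := by
  intro m m' hm u hu v hv
  refine h (φ m) (φ m') (hφ hm) u (convexHull_mono ?_ hu) v (convexHull_mono ?_ hv)
  · rintro _ ⟨k, hk, rfl⟩
    exact ⟨φ k, hφ hk, rfl⟩
  · rintro _ ⟨k, hk, rfl⟩
    exact ⟨φ k, hφ hk, rfl⟩

lemma Sep.inner {L : ℝ} {P : ℕ → Y} (h : Sep L P) {a m m' b : ℕ} (h1 : a ≤ m) (h2 : m ≤ m')
    (h3 : m' ≤ b) : ‖P m' - P m‖ ≤ L * ‖P b - P a‖ :=
  h m m' h2 _ (subset_convexHull ℝ _ ⟨a, h1, rfl⟩) _ (subset_convexHull ℝ _ ⟨b, h3, rfl⟩)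

lemma uc_scaled [UniformConvexSpace Y] {e : ℝ} (he : 0 < e) :
    ∃ δ : ℝ, 0 < δ ∧ ∀ (x y : Y) (ρ R : ℝ), 0 < R → ‖x‖ ≤ ρ → ‖y‖ ≤ ρ → ρ ≤ R →
      e * R ≤ ‖x - y‖ → ‖x + y‖ ≤ 2 * ρ - δ * R := by
  obtain ⟨δ, hδ, h⟩ := exists_forall_closed_ball_dist_add_le_two_sub Y he
  refine ⟨e * δ / 2, by positivity, fun x y ρ R hR hx hy hρ hxy => ?_⟩
  have h2 : e * R ≤ 2 * ρ := by
    have := norm_sub_le x y
    linarith
  have hρ0 : 0 < ρ := by
    have : 0 < e * R := by positivity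
    linarith
  have hx' : ‖ρ⁻¹ • x‖ ≤ 1 := by
    rw [norm_smul, norm_inv, Real.norm_of_nonneg hρ0.le, inv_mul_le_iff₀ hρ0]
    linarith
  have hy' : ‖ρ⁻¹ • y‖ ≤ 1 := by
    rw [norm_smul, norm_inv, Real.norm_of_nonneg hρ0.le, inv_mul_le_iff₀ hρ0]
    linarith
  have hxy' : e ≤ ‖ρ⁻¹ • x - ρ⁻¹ • y‖ := by
    rw [← smul_sub, norm_smul, norm_inv, Real.norm_of_nonneg hρ0.le, le_inv_mul_iff₀ hρ0]
    nlinarith
  have := h hx' hy' hxy'
  rw [← smul_add, norm_smul, norm_inv, Real.norm_of_nonneg hρ0.le, inv_mul_le_iff₀ hρ0] at this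
  nlinarith

/-- Dyadic averages of a sequence. -/
noncomputable def avg (P : ℕ → Y) : ℕ → ℕ → Y
  | 0, a => P a
  | j + 1, a => (1 / 2 : ℝ) • (avg P j a + avg P j (a + 2 ^ j))

lemma avg_mem (P : ℕ → Y) (S : Set ℕ) :
    ∀ j a, (∀ k, a ≤ k → k < a + 2 ^ j → k ∈ S) → avg P j a ∈ convexHull ℝ (P '' S) := by
  intro j
  induction j with
  | zero =>
    intro a h
    exact subset_convexHull ℝ _ ⟨a, h a le_rfl (by simp), rfl⟩
  | succ j ih =>
    intro a h
    have h1 := ih a (fun k h1 h2 => h k h1 (by rw [pow_succ]; omega))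
    have h2 := ih (a + 2 ^ j) (fun k h1 h2 => h k (by omega) (by rw [pow_succ]; omega))
    have := (convex_convexHull ℝ (P '' S)) h1 h2 (a := 1 / 2) (b := 1 / 2) (by norm_num)
      (by norm_num) (by norm_num)
    simpa [avg, smul_add] using this

lemma doubling [UniformConvexSpace Y] {L : ℝ} (hL : 0 < L) :
    ∃ n0 : ℕ, 1 ≤ n0 ∧ ∀ P : ℕ → Y, Sep L P → ∀ η : ℝ, 0 < η →
      (∀ i < n0, η ≤ ‖P (i + 1) - P i‖) → 2 * η ≤ ‖P n0 - P 0‖ := by
  obtain ⟨δ, hδ, h⟩ := uc_scaled (Y := Y) (e := 1 / (2 * L ^ 2)) (by positivity)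
  obtain ⟨J, hJ⟩ := exists_nat_gt (2 / δ)
  refine ⟨2 ^ J, Nat.one_le_two_pow, fun P hP η hη hstep => ?_⟩
  by_contra hcon
  push Not at hcon
  set R := 2 * L * η with hR
  have hR0 : 0 < R := by positivity
  have key : ∀ j a, a + 2 ^ j ≤ 2 ^ J + 1 → ‖avg P j a - P 0‖ ≤ R - j * (δ * R / 2) := by
    intro j
    induction j with
    | zero =>
      intro a ha
      have := hP.inner (a := 0) (m := 0) (m' := a) (b := 2 ^ J) le_rfl (Nat.zero_le _)
        (by simpa using ha)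
      simp only [avg, Nat.cast_zero, zero_mul, sub_zero]
      nlinarith
    | succ j ih =>
      intro a ha
      have hp : 1 ≤ 2 ^ j := Nat.one_le_two_pow
      rw [pow_succ] at ha
      have h1 := ih a (by omega)
      have h2 := ih (a + 2 ^ j) (by omega)
      have hsep := hP (a + 2 ^ j - 1) (a + 2 ^ j) (by omega) (avg P j a)
        (avg_mem P _ j a (fun k _ h2 => by simp only [Set.mem_ofPred_eq]; omega))
        (avg P j (a + 2 ^ j)) (avg_mem P _ j _ (fun k h1 _ => h1))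
      have hs := hstep (a + 2 ^ j - 1) (by omega)
      rw [show a + 2 ^ j - 1 + 1 = a + 2 ^ j by omega] at hs
      have hd : 1 / (2 * L ^ 2) * R ≤
          ‖(avg P j (a + 2 ^ j) - P 0) - (avg P j a - P 0)‖ := by
        rw [sub_sub_sub_cancel_right]
        have e1 : 1 / (2 * L ^ 2) * R = η / L := by
          rw [hR]; field_simp
        rw [e1, div_le_iff₀ hL]
        linarith
      have hle : R - j * (δ * R / 2) ≤ R := by
        have : 0 ≤ (j : ℝ) * (δ * R / 2) := by positivity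
        linarith
      have := h _ _ _ R hR0 h2 h1 hle hd
      have e2 : avg P (j + 1) a - P 0 =
          (1 / 2 : ℝ) • ((avg P j (a + 2 ^ j) - P 0) + (avg P j a - P 0)) := by
        simp only [avg]
        module
      rw [e2, norm_smul, Real.norm_of_nonneg (by norm_num)]
      push_cast
      linarith
  have := key J 0 (by omega)
  have h0 := norm_nonneg (avg P J 0 - P 0)
  rw [div_lt_iff₀ hδ] at hJ
  nlinarith

lemma iterate_doubling {L : ℝ} {n0 : ℕ}
    (h : ∀ P : ℕ → Y, Sep L P → ∀ η : ℝ, 0 < η →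
      (∀ i < n0, η ≤ ‖P (i + 1) - P i‖) → 2 * η ≤ ‖P n0 - P 0‖) :
    ∀ j : ℕ, ∀ P : ℕ → Y, Sep L P → ∀ η : ℝ, 0 < η →
      (∀ i < n0 ^ j, η ≤ ‖P (i + 1) - P i‖) → 2 ^ j * η ≤ ‖P (n0 ^ j) - P 0‖ := by
  intro j
  induction j with
  | zero =>
    intro P _ η _ hs
    simpa using hs 0 (by simp)
  | succ j ih =>
    intro P hP η hη hs
    have hQ : Sep L (P ∘ fun i => i * n0 ^ j) :=
      hP.comp (fun a b hab => Nat.mul_le_mul_right _ hab)
    have := h _ hQ (2 ^ j * η) (by positivity) (fun i hi => by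
      have hS : Sep L (P ∘ fun k => i * n0 ^ j + k) :=
        hP.comp (fun a b hab => Nat.add_le_add_left hab _)
      have := ih _ hS η hη (fun k hk => by
        have := hs (i * n0 ^ j + k) (by
          rw [pow_succ]
          nlinarith)
        simpa [Function.comp, add_assoc] using this)
      simpa [Function.comp, add_mul] using this)
    simp only [Function.comp, zero_mul] at this
    rw [pow_succ, pow_succ, mul_comm (n0 ^ j) n0]
    linarith

lemma count_bound {L : ℝ} (hL : 0 < L) {n0 : ℕ}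
    (h : ∀ P : ℕ → Y, Sep L P → ∀ η : ℝ, 0 < η →
      (∀ i < n0, η ≤ ‖P (i + 1) - P i‖) → 2 * η ≤ ‖P n0 - P 0‖)
    (P : ℕ → Y) (hP : Sep L P) (N j : ℕ) (η : ℝ) (hη : 0 < η)
    (hc : n0 ^ j ≤ ((range N).filter fun i => η ≤ ‖P (i + 1) - P i‖).card) :
    2 ^ j * η ≤ L ^ 2 * ‖P N - P 0‖ := by
  classical
  set S := (range N).filter fun i => η ≤ ‖P (i + 1) - P i‖ with hS
  let e := S.orderEmbOfCardLe hc
  have he : ∀ k, e k ∈ S := fun k => S.orderEmbOfCardLe_mem hc k
  have helt : ∀ k, e k < N := fun k => by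
    have := he k
    rw [hS, mem_filter, mem_range] at this
    exact this.1
  let φ : ℕ → ℕ := fun k => if hk : k < n0 ^ j then e ⟨k, hk⟩ else N
  have hstrict : ∀ k < n0 ^ j, φ k + 1 ≤ φ (k + 1) := by
    intro k hk
    by_cases hk' : k + 1 < n0 ^ j
    · simp only [φ, dif_pos hk, dif_pos hk']
      exact e.strictMono (show (⟨k, hk⟩ : Fin _) < ⟨k + 1, hk'⟩ from Nat.lt_succ_self k)
    · simp only [φ, dif_pos hk, dif_neg hk']
      exact helt _
  have hφ : Monotone φ := by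
    refine monotone_nat_of_le_succ fun k => ?_
    by_cases hk : k < n0 ^ j
    · have := hstrict k hk
      omega
    · have hk' : ¬ k + 1 < n0 ^ j := by omega
      simp only [φ, dif_neg hk, dif_neg hk', le_refl]
  have hN : φ (n0 ^ j) = N := by simp [φ]
  have h1 := iterate_doubling h j (P ∘ φ) (hP.comp hφ) (η / L) (by positivity) (fun k hk => by
    have h2 : η ≤ ‖P (φ k + 1) - P (φ k)‖ := by
      have := he ⟨k, hk⟩
      rw [hS, mem_filter] at this
      simpa only [φ, dif_pos hk] using this.2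
    have h3 := hP.inner (a := φ k) (m := φ k) (m' := φ k + 1) (b := φ (k + 1)) le_rfl
      (Nat.le_succ _) (hstrict k hk)
    rw [div_le_iff₀ hL]
    simp only [Function.comp]
    linarith)
  simp only [Function.comp, hN] at h1
  have h0 : φ 0 ≤ N := by
    rw [← hN]
    exact hφ (Nat.zero_le _)
  have h4 := hP.inner (a := 0) (m := φ 0) (m' := N) (b := N) (Nat.zero_le _) h0 le_rfl
  have h5 : 2 ^ j * (η / L) ≤ L * ‖P N - P 0‖ := h1.trans h4
  rw [← mul_div_assoc, div_le_iff₀ hL] at h5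
  nlinarith

lemma weak_to_strong (d : ℕ → ℝ) (hd : ∀ i, 0 ≤ d i) (s : Finset ℕ) (B : ℝ) (hB : 0 < B)
    (n0 r : ℕ) (hr1 : 1 ≤ r) (hr : 2 * n0 ≤ 2 ^ r)
    (h : ∀ j : ℕ, (s.filter fun i => B / 2 ^ j ≤ d i).card < n0 ^ j) :
    ∑ i ∈ s, d i ^ r ≤ 2 * n0 * B ^ r := by
  classical
  have key : ∀ J : ℕ, ∑ i ∈ s.filter (fun i => B / 2 ^ J ≤ d i), d i ^ r ≤
      n0 * B ^ r * (2 - 2 / 2 ^ J) := by
    intro J
    induction J with
    | zero =>
      have := h 0
      rw [pow_zero n0, Nat.lt_one_iff, card_eq_zero] at this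
      rw [this]
      simp
    | succ J ih =>
      rw [← sum_filter_add_sum_filter_not (s.filter fun i => B / 2 ^ (J + 1) ≤ d i)
        (fun i => B / 2 ^ J ≤ d i)]
      have hsub : (s.filter fun i => B / 2 ^ (J + 1) ≤ d i).filter (fun i => B / 2 ^ J ≤ d i) ⊆
          s.filter (fun i => B / 2 ^ J ≤ d i) := by
        intro i hi
        simp only [mem_filter] at hi ⊢
        exact ⟨hi.1.1, hi.2⟩
      have h1 := (sum_le_sum_of_subset_of_nonneg hsub
        (f := fun i => d i ^ r) (fun i _ _ => pow_nonneg (hd i) r)).trans ih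
      have h2 : ∑ i ∈ (s.filter fun i => B / 2 ^ (J + 1) ≤ d i).filter
          (fun i => ¬ B / 2 ^ J ≤ d i), d i ^ r ≤ (n0 : ℝ) ^ (J + 1) * (B / 2 ^ J) ^ r := by
        refine (sum_le_card_nsmul _ _ ((B / 2 ^ J) ^ r) (fun i hi => ?_)).trans ?_
        · simp only [mem_filter, not_le] at hi
          exact pow_le_pow_left₀ (hd i) hi.2.le r
        · rw [nsmul_eq_mul]
          refine mul_le_mul_of_nonneg_right ?_ (by positivity)
          have := (card_filter_le (s.filter fun i => B / 2 ^ (J + 1) ≤ d i)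
            (fun i => ¬ B / 2 ^ J ≤ d i)).trans (h (J + 1)).le
          exact_mod_cast this
      have h3 : (n0 : ℝ) ^ (J + 1) * (B / 2 ^ J) ^ r ≤ n0 * B ^ r * (1 / 2 ^ J) := by
        have hr' : (2 : ℝ) * n0 ≤ 2 ^ r := by exact_mod_cast hr
        have h4 : ((2 : ℝ) * n0) ^ J ≤ (2 ^ r) ^ J := pow_le_pow_left₀ (by positivity) hr' J
        have e1 : (n0 : ℝ) ^ (J + 1) * (B / 2 ^ J) ^ r =
            n0 * B ^ r * (n0 ^ J / (2 ^ r) ^ J) := by
          rw [div_pow, ← pow_mul, ← pow_mul, mul_comm J r]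
          ring
        rw [e1]
        refine mul_le_mul_of_nonneg_left ?_ (by positivity)
        rw [div_le_div_iff₀ (by positivity) (by positivity)]
        rw [mul_pow] at h4
        linarith
      have e2 : (n0 : ℝ) * B ^ r * (2 - 2 / 2 ^ (J + 1)) =
          n0 * B ^ r * (2 - 2 / 2 ^ J) + n0 * B ^ r * (1 / 2 ^ J) := by
        rw [pow_succ]
        field_simp
        ring
      rw [e2]
      linarith
  have hJ : ∃ J : ℕ, ∀ i ∈ s, 0 < d i → B / 2 ^ J ≤ d i := by
    have hev : ∀ i ∈ s, ∀ᶠ J : ℕ in Filter.atTop, 0 < d i → B / 2 ^ J ≤ d i := by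
      intro i _
      by_cases hi : 0 < d i
      · have ht : Filter.Tendsto (fun J : ℕ => B / 2 ^ J) Filter.atTop (nhds 0) :=
          Filter.Tendsto.const_div_atTop (tendsto_pow_atTop_atTop_of_one_lt one_lt_two) B
        filter_upwards [ht.eventually (ge_mem_nhds hi)] with J hJ _ using hJ
      · exact Filter.Eventually.of_forall fun J h => absurd h hi
    exact ((Filter.eventually_all_finset s).2 hev).exists
  obtain ⟨J, hJ⟩ := hJ
  have e : ∑ i ∈ s, d i ^ r = ∑ i ∈ s.filter (fun i => B / 2 ^ J ≤ d i), d i ^ r := by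
    symm
    refine sum_filter_of_ne fun i hi hne => hJ i hi ?_
    rcases (hd i).eq_or_lt with h0 | h0
    · rw [← h0, zero_pow (by omega)] at hne
      exact absurd rfl hne
    · exact h0
  rw [e]
  refine (key J).trans ?_
  have : (0 : ℝ) ≤ n0 * B ^ r * (2 / 2 ^ J) := by positivity
  nlinarith

/-- Bounded `r`-variation of separated sequences. -/
theorem variation [UniformConvexSpace Y] {L : ℝ} (hL : 0 < L) :
    ∃ r : ℕ, 1 ≤ r ∧ ∃ C : ℝ, 0 ≤ C ∧ ∀ P : ℕ → Y, Sep L P → ∀ N : ℕ,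
      ∑ i ∈ range N, ‖P (i + 1) - P i‖ ^ r ≤ C * ‖P N - P 0‖ ^ r := by
  obtain ⟨n0, hn0, h⟩ := doubling (Y := Y) hL
  refine ⟨n0 + 1, by omega, 2 * n0 * (2 * L ^ 2) ^ (n0 + 1), by positivity, fun P hP N => ?_⟩
  rcases (norm_nonneg (P N - P 0)).eq_or_lt with h0 | h0
  · rw [← h0]
    refine le_of_eq ?_
    rw [zero_pow (by omega), mul_zero]
    refine sum_eq_zero fun i hi => ?_
    have := hP.inner (a := 0) (m := i) (m' := i + 1) (b := N) (Nat.zero_le _) (Nat.le_succ _)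
      (mem_range.1 hi)
    rw [← h0, mul_zero] at this
    rw [le_antisymm this (norm_nonneg _), zero_pow (by omega)]
  · have := weak_to_strong (fun i => ‖P (i + 1) - P i‖) (fun i => norm_nonneg _) (range N)
      (2 * L ^ 2 * ‖P N - P 0‖) (by positivity) n0 (n0 + 1) (by omega)
      (by
        have := @Nat.lt_two_pow_self n0
        rw [pow_succ]
        omega)
      (fun j => by
        by_contra hc
        push Not at hc
        have := count_bound hL h P hP N j _ (by positivity) hc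
        have e : (2 : ℝ) ^ j * (2 * L ^ 2 * ‖P N - P 0‖ / 2 ^ j) = 2 * L ^ 2 * ‖P N - P 0‖ := by
          field_simp
        rw [e] at this
        have : 0 < L ^ 2 * ‖P N - P 0‖ := by positivity
        linarith)
    rw [mul_pow] at this
    linarith

end Pool.Agent.Lib.MP_4bd73f_an
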